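import Pool.Agent.Lib.MP_4da9c2_lc.Band

namespace Pool.Agent.Results.MP_4da9c2_lc.BandHighway

open Pool.Agent.Lib.MP_4da9c2_lc

theorem result (s : State) (hs : {q | s.black q = true}.Finite) :
    (∃ (t₀ P : ℕ) (v : ℤ × ℤ), 0 < P ∧ v ≠ 0 ∧ ∀ t ≥ t₀,
      (step^[t + P] s).black (step^[t + P] s).pos = (step^[t] s).black (step^[t] s).pos ∧
        (step^[t + P] s).pos = (step^[t] s).pos + v) ∨
    ∀ᶠ T : ℕ in Filter.atTop, ∀ (g : ℤ × ℤ → ℝ) (σ : ℤ), (σ = 1 ∨ σ = -1) →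
      (∀ x y, g (x, y) + 1 ≤ g (x + 1, y)) → (∀ x y, g (x, y) + 1 ≤ g (x, y + σ)) →
      ∃ t < T, ∃ t' < T,
        Real.log (Real.log T) / 2 ≤ g (step^[t] s).pos - g (step^[t'] s).pos := by
  by_cases h : Hw s
  · exact Or.inl h
  · exact Or.inr (spread s hs h)

end Pool.Agent.Results.MP_4da9c2_lc.BandHighway
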