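import Pool.Agent.Lib.MP_4da9c2_lc.Escape

namespace Pool.Agent.Results.MP_4da9c2_lc.EscapeTime

open Pool.Agent.Lib.MP_4da9c2_lc

theorem result (s : State) (a b : ℤ) (m n : ℕ) :
    ∃ t ≤ 32 * 3 ^ (m / 2 + n / 2),
      ¬ (a ≤ (step^[t] s).pos.1 ∧ (step^[t] s).pos.1 < a + m ∧
          b ≤ (step^[t] s).pos.2 ∧ (step^[t] s).pos.2 < b + n) := by
  by_contra h
  push Not at h
  have := escape s a b m n (32 * 3 ^ (m / 2 + n / 2) + 1) fun t ht => h t (by omega)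
  omega

end Pool.Agent.Results.MP_4da9c2_lc.EscapeTime
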