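import Pool.Agent.Lib.MP_4da9c2_lc.Second

/-! A finite configuration from which the ant builds a highway of period 1236, never the
104-step one. -/

namespace Pool.Agent.Results.MP_4da9c2_lc.SecondHighway

open Pool.Agent.Lib.MP_4da9c2_lc

theorem result : ∃ s : State, {q | s.black q = true}.Finite ∧
    (∀ t : ℕ,
      (step^[t + 1236] s).black (step^[t + 1236] s).pos = (step^[t] s).black (step^[t] s).pos ∧
        (step^[t + 1236] s).pos = (step^[t] s).pos + (-2, 2)) ∧
    ¬ ∃ t₀ : ℕ, ∀ t ≥ t₀,
      (step^[t + 104] s).black (step^[t + 104] s).pos = (step^[t] s).black (step^[t] s).pos :=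
  ⟨ofN s0, finite_s0, fun t => ⟨(second t).2.colour (second t).1, (second t).2.1⟩, not_104⟩

end Pool.Agent.Results.MP_4da9c2_lc.SecondHighway
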